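import Pool.Agent.H49BK.Final

/-!
# Every 6-connected `K₄`-covered graph is rigid in `ℝ³`
-/

namespace Pool.Agent.Results.MP_212c18_co.SixConnected

open Pool.Agent.H49BJ

theorem result (V : Type) [Fintype V] [DecidableEq V] (G : SimpleGraph V)
    (h6 : KConn 6 G) (hK : K4Covered G) :
    (∃ p : V → Fin 3 → ℝ, GenericPos p) ∧
      ∀ p : V → Fin 3 → ℝ, GenericPos p →
        (rigidityMatrix G p).rank + 6 = 3 * Fintype.card V :=
  ⟨exists_generic, Pool.Agent.H49BK.six_connected_rigid G h6 hK⟩

end Pool.Agent.Results.MP_212c18_co.SixConnected
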